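import Mathlib
import Pool.Agent.H964.LF.Stm

set_option autoImplicit false

namespace Pool.Agent.H897.LF

open Pool.Agent.H964.LF

noncomputable section

lemma mem_Grid {d J : ℕ} (q : Site d) : q ∈ Grid d J ↔ ∀ i, q i < 2 ^ J := by
  simp [Grid, Fintype.mem_piFinset]

lemma mem_cells {d J ℓ m : ℕ} (k q : Site d) : q ∈ cells J ℓ m k ↔
    (∀ i, q i < 2 ^ (J - ℓ)) ∧ ∀ i, q i / 2 ^ (m - ℓ) = k i / 2 ^ m := by
  simp [cells, mem_Grid]

lemma card_cells {d J ℓ m : ℕ} (k : Site d) : (cells J ℓ m k).card ≤ 2 ^ (d * (m - ℓ)) := by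
  have h : (cells J ℓ m k).card ≤
      (Fintype.piFinset fun _ : Fin d => Finset.range (2 ^ (m - ℓ))).card := by
    refine Finset.card_le_card_of_injOn (fun q i => q i % 2 ^ (m - ℓ)) ?_ ?_
    · intro q _
      rw [Finset.mem_coe, Fintype.mem_piFinset]
      intro i
      rw [Finset.mem_range]
      exact Nat.mod_lt _ (by positivity)
    · intro q hq q' hq' h
      funext i
      have h1 : q i % 2 ^ (m - ℓ) = q' i % 2 ^ (m - ℓ) := congrFun h i
      have h2 := ((mem_cells k q).1 (Finset.mem_coe.1 hq)).2 i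
      have h3 := ((mem_cells k q').1 (Finset.mem_coe.1 hq')).2 i
      rw [← Nat.div_add_mod (q i) (2 ^ (m - ℓ)), ← Nat.div_add_mod (q' i) (2 ^ (m - ℓ)), h2, h3, h1]
  refine h.trans ?_
  rw [Fintype.card_piFinset]
  simp only [Finset.card_range, Finset.prod_const, Finset.card_univ, Fintype.card_fin]
  rw [← pow_mul, mul_comm]

lemma rep_box {d : ℕ} (B : Finset (Site d)) (ℓ : ℕ) : ∀ (q : Site d) (i : Fin d),
    2 ^ ℓ * q i ≤ rep B ℓ q i ∧ rep B ℓ q i < 2 ^ ℓ * (q i + 1) := by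
  induction ℓ with
  | zero => intro q i; simp [rep]
  | succ ℓ ih =>
    intro q i
    have key : ∀ ε : Fin d → Bool, 2 ^ (ℓ + 1) * q i ≤ rep B ℓ (ch q ε) i ∧
        rep B ℓ (ch q ε) i < 2 ^ (ℓ + 1) * (q i + 1) := by
      intro ε
      obtain ⟨h1, h2⟩ := ih (ch q ε) i
      have h3 : ch q ε i = 2 * q i + (if ε i then 1 else 0) := rfl
      rw [h3] at h1 h2
      constructor
      · calc 2 ^ (ℓ + 1) * q i = 2 ^ ℓ * (2 * q i) := by ring
          _ ≤ 2 ^ ℓ * (2 * q i + (if ε i then 1 else 0)) :=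
            Nat.mul_le_mul_left _ (Nat.le_add_right _ _)
          _ ≤ _ := h1
      · calc rep B ℓ (ch q ε) i < 2 ^ ℓ * (2 * q i + (if ε i then 1 else 0) + 1) := h2
          _ ≤ 2 ^ ℓ * (2 * (q i + 1)) := Nat.mul_le_mul_left _ (by split_ifs <;> omega)
          _ = _ := by ring
    rw [rep]
    split_ifs
    · exact key _
    · exact key _

/-- the l1 distance of two sites -/
def ds {d : ℕ} (a b : Site d) : ℕ := ∑ i, ((a i - b i) + (b i - a i))

lemma sx_self {d : ℕ} (a : Site d) (i : Fin d) : sx a i i = a i + 1 := by simp [sx]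

lemma sx_ne {d : ℕ} (a : Site d) (i j : Fin d) (h : j ≠ i) : sx a i j = a j := by
  simp [sx, h]

lemma ds_step {d : ℕ} (a b : Site d) (i : Fin d) (h : a i < b i) :
    ds (sx a i) b + 1 = ds a b := by
  unfold ds
  rw [← Finset.add_sum_erase _ _ (Finset.mem_univ i),
    ← Finset.add_sum_erase _ (fun i => a i - b i + (b i - a i)) (Finset.mem_univ i)]
  have h1 : ∑ x ∈ Finset.univ.erase i, (sx a i x - b x + (b x - sx a i x)) =
      ∑ x ∈ Finset.univ.erase i, (a x - b x + (b x - a x)) := by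
    refine Finset.sum_congr rfl fun x hx => ?_
    rw [sx_ne a i x (Finset.mem_erase.1 hx).1]
  rw [h1, sx_self]
  omega

lemma ds_comm {d : ℕ} (a b : Site d) : ds a b = ds b a := by
  unfold ds
  exact Finset.sum_congr rfl fun i _ => add_comm _ _

lemma sx_mem_Grid {d J : ℕ} {a : Site d} (ha : a ∈ Grid d J) {i : Fin d} (h : a i + 1 < 2 ^ J) :
    sx a i ∈ Grid d J := by
  rw [mem_Grid] at ha ⊢
  intro j
  by_cases hj : j = i
  · rw [hj, sx_self]; exact h
  · rw [sx_ne a i j hj]; exact ha j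

lemma path {d J : ℕ} {w : Site d → ℝ} {Λ : ℝ} (hΛ : 0 ≤ Λ) (h : LipG J w Λ) (N : ℕ) :
    ∀ a b : Site d, a ∈ Grid d J → b ∈ Grid d J → ds a b ≤ N → |w a - w b| ≤ Λ * N := by
  induction N with
  | zero =>
    intro a b _ _ hab
    have h0 : ds a b = 0 := by omega
    have : a = b := by
      funext i
      have h1 := (Finset.sum_eq_zero_iff.1 h0) i (Finset.mem_univ i)
      omega
    rw [this]; simp
  | succ N ih =>
    intro a b ha hb hab
    by_cases hE : a = b
    · rw [hE, sub_self, abs_zero]; positivity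
    · obtain ⟨i, hi⟩ : ∃ i, a i ≠ b i := by
        by_contra hc
        push Not at hc
        exact hE (funext hc)
      have hpush : Λ * ((N + 1 : ℕ) : ℝ) = Λ + Λ * N := by push_cast; ring
      rw [hpush]
      rcases lt_or_gt_of_ne hi with hlt | hgt
      · have h1 : a i + 1 < 2 ^ J := lt_of_le_of_lt hlt ((mem_Grid b).1 hb i)
        have h2 := ds_step a b i hlt
        have h3 := ih (sx a i) b (sx_mem_Grid ha h1) hb (by omega)
        have h4 := h a ha i h1
        calc |w a - w b| = |-(w (sx a i) - w a) + (w (sx a i) - w b)| := by ring_nf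
          _ ≤ |-(w (sx a i) - w a)| + |w (sx a i) - w b| := abs_add_le _ _
          _ ≤ Λ + Λ * N := by rw [abs_neg]; exact add_le_add h4 h3
      · have h1 : b i + 1 < 2 ^ J := lt_of_le_of_lt hgt ((mem_Grid a).1 ha i)
        have h2 := ds_step b a i hgt
        have h3 := ih a (sx b i) ha (sx_mem_Grid hb h1) (by rw [ds_comm] at hab ⊢; omega)
        have h4 := h b hb i h1
        calc |w a - w b| = |(w (sx b i) - w b) + (w a - w (sx b i))| := by ring_nf
          _ ≤ |w (sx b i) - w b| + |w a - w (sx b i)| := abs_add_le _ _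
          _ ≤ Λ + Λ * N := add_le_add h4 h3

lemma rep_mem {d J ℓ : ℕ} (B : Finset (Site d)) {q : Site d} (hℓ : ℓ ≤ J)
    (hq : q ∈ Grid d (J - ℓ)) : rep B ℓ q ∈ Grid d J := by
  rw [mem_Grid] at hq ⊢
  intro i
  calc rep B ℓ q i < 2 ^ ℓ * (q i + 1) := (rep_box B ℓ q i).2
    _ ≤ 2 ^ ℓ * 2 ^ (J - ℓ) := Nat.mul_le_mul_left _ (hq i)
    _ = 2 ^ J := by rw [← pow_add]; congr 1; omega

lemma ds_rep {d ℓ : ℕ} (B : Finset (Site d)) (q : Site d) (i : Fin d) :
    ds (rep B ℓ (sx q i)) (rep B ℓ q) ≤ 2 * d * 2 ^ ℓ := by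
  have hd : 1 ≤ d := Fin.pos i
  have h1 : ∀ j, (rep B ℓ (sx q i) j - rep B ℓ q j) + (rep B ℓ q j - rep B ℓ (sx q i) j) ≤
      2 ^ ℓ + (if j = i then 2 ^ ℓ else 0) := by
    intro j
    obtain ⟨a1, a2⟩ := rep_box B ℓ (sx q i) j
    obtain ⟨b1, b2⟩ := rep_box B ℓ q j
    by_cases hj : j = i
    · subst hj
      rw [sx_self] at a1 a2
      rw [if_pos rfl]
      simp only [mul_add, mul_one] at a1 a2 b1 b2
      omega
    · rw [sx_ne q i j hj] at a1 a2
      rw [if_neg hj]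
      simp only [mul_add, mul_one] at a1 a2 b1 b2
      omega
  calc ds (rep B ℓ (sx q i)) (rep B ℓ q) ≤ ∑ j : Fin d, (2 ^ ℓ + (if j = i then 2 ^ ℓ else 0)) :=
        Finset.sum_le_sum fun j _ => h1 j
    _ = d * 2 ^ ℓ + 2 ^ ℓ := by
        rw [Finset.sum_add_distrib]
        simp
    _ ≤ d * 2 ^ ℓ + d * 2 ^ ℓ := Nat.add_le_add_left (Nat.le_mul_of_pos_left _ hd) _
    _ = 2 * d * 2 ^ ℓ := by ring

lemma edge {d J ℓ : ℕ} (B : Finset (Site d)) {w : Site d → ℝ} {Λ : ℝ} (hΛ : 0 ≤ Λ)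
    (h : LipG J w Λ) (hℓ : ℓ ≤ J) {q : Site d} {i : Fin d} (hq : q ∈ Grid d (J - ℓ))
    (hq' : sx q i ∈ Grid d (J - ℓ)) :
    |w (rep B ℓ (sx q i)) - w (rep B ℓ q)| ≤ Λ * (2 * d * 2 ^ ℓ : ℝ) := by
  have h1 := path hΛ h (2 * d * 2 ^ ℓ) _ _ (rep_mem B hℓ hq') (rep_mem B hℓ hq) (ds_rep B q i)
  push_cast at h1
  exact h1

lemma sx_inj {d : ℕ} (i : Fin d) : Function.Injective fun q : Site d => sx q i := by
  intro a b h
  exact add_right_cancel (h : a + Pi.single i 1 = b + Pi.single i 1)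

open Classical in
theorem t_DT4 : S_DT4 := by
  intro d B w Λ J ℓ m k hd hℓm hmJ hk hΛ hL
  have hℓJ : ℓ ≤ J := hℓm.trans hmJ
  set C := cells J ℓ m k with hC
  have hCG : ∀ q ∈ C, q ∈ Grid d (J - ℓ) := fun q hq => (Finset.mem_filter.1 hq).1
  set Δ : Site d → Fin d → ℝ := fun q i => |w (rep B ℓ (sx q i)) - w (rep B ℓ q)| with hΔ
  set D : ℝ := Λ * (2 * d * 2 ^ ℓ : ℝ) with hD
  have hD0 : 0 ≤ D := by positivity
  set G : Site d → Fin d → ℝ := fun q i =>
    if sx q i ∈ C ∧ ¬ bd B ℓ q ∧ ¬ bd B ℓ (sx q i) then Δ q i else 0 with hG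
  set Bc : Finset (Site d) := C.filter fun q => bd B ℓ q with hBc
  have hnb : (nbad B J ℓ m k : ℝ) = Bc.card := rfl
  have hterm : ∀ q ∈ C, ∀ i : Fin d, (if sx q i ∈ C then Δ q i else 0) ≤
      G q i + (if bd B ℓ q then D else 0) +
        (if sx q i ∈ C ∧ bd B ℓ (sx q i) then D else 0) := by
    intro q hq i
    by_cases h1 : sx q i ∈ C
    · have h2 : Δ q i ≤ D := edge B hΛ hL hℓJ (hCG q hq) (hCG _ h1)
      rw [if_pos h1]
      by_cases h3 : bd B ℓ q
      · have h4 : G q i = 0 := if_neg fun h => h.2.1 h3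
        rw [h4, if_pos h3]
        split_ifs <;> linarith
      · by_cases h5 : bd B ℓ (sx q i)
        · have h4 : G q i = 0 := if_neg fun h => h.2.2 h5
          rw [h4, if_neg h3, if_pos ⟨h1, h5⟩]
          linarith
        · have h4 : G q i = Δ q i := if_pos ⟨h1, h3, h5⟩
          rw [h4, if_neg h3, if_neg fun h => h5 h.2]
          linarith
    · have h4 : G q i = 0 := if_neg fun h => h1 h.1
      rw [if_neg h1, h4]
      split_ifs <;> linarith
  have htv : tv J ℓ m k (fun q => w (rep B ℓ q)) ≤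
      (∑ q ∈ C, ∑ i : Fin d, G q i) + (∑ q ∈ C, ∑ i : Fin d, if bd B ℓ q then D else 0) +
        ∑ q ∈ C, ∑ i : Fin d, if sx q i ∈ C ∧ bd B ℓ (sx q i) then D else 0 := by
    have h1 : tv J ℓ m k (fun q => w (rep B ℓ q)) =
        ∑ q ∈ C, ∑ i : Fin d, if sx q i ∈ C then Δ q i else 0 := rfl
    rw [h1, ← Finset.sum_add_distrib, ← Finset.sum_add_distrib]
    refine Finset.sum_le_sum fun q hq => ?_
    rw [← Finset.sum_add_distrib, ← Finset.sum_add_distrib]
    exact Finset.sum_le_sum fun i _ => hterm q hq i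
  have hb1 : (∑ q ∈ C, ∑ i : Fin d, if bd B ℓ q then D else 0) = d * Bc.card * D := by
    have h1 : ∀ q ∈ C, (∑ i : Fin d, if bd B ℓ q then D else 0) =
        (if bd B ℓ q then (d * D : ℝ) else 0) := by
      intro q _
      split_ifs
      · simp
      · simp
    rw [Finset.sum_congr rfl h1, ← Finset.sum_filter, Finset.sum_const, nsmul_eq_mul]
    ring
  have hb2 : (∑ q ∈ C, ∑ i : Fin d, if sx q i ∈ C ∧ bd B ℓ (sx q i) then D else 0) ≤
      d * Bc.card * D := by
    rw [Finset.sum_comm]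
    have h1 : ∀ i : Fin d, (∑ q ∈ C, if sx q i ∈ C ∧ bd B ℓ (sx q i) then D else 0) ≤
        Bc.card * D := by
      intro i
      rw [← Finset.sum_filter, Finset.sum_const, nsmul_eq_mul]
      refine mul_le_mul_of_nonneg_right ?_ hD0
      have h2 : (C.filter fun q => sx q i ∈ C ∧ bd B ℓ (sx q i)).card ≤ Bc.card := by
        refine Finset.card_le_card_of_injOn (fun q => sx q i) ?_ ((sx_inj i).injOn)
        intro q hq
        have h3 := (Finset.mem_filter.1 (Finset.mem_coe.1 hq)).2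
        exact Finset.mem_coe.2 (Finset.mem_filter.2 h3)
      exact_mod_cast h2
    calc _ ≤ ∑ i : Fin d, (Bc.card * D : ℝ) := Finset.sum_le_sum fun i _ => h1 i
      _ = d * Bc.card * D := by simp; ring
  have hSS : ∑ q ∈ C, ∑ i : Fin d, (G q i) ^ 2 ≤ SS B w J ℓ := by
    unfold SS
    refine (Finset.sum_le_sum fun q hq => Finset.sum_le_sum fun i _ => ?_).trans
      (Finset.sum_le_sum_of_subset_of_nonneg (fun q hq => hCG q hq) fun q _ _ =>
        Finset.sum_nonneg fun i _ => ?_)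
    · by_cases h1 : sx q i ∈ C ∧ ¬ bd B ℓ q ∧ ¬ bd B ℓ (sx q i)
      · have h4 : G q i = Δ q i := if_pos h1
        have h5 := (mem_Grid _).1 (hCG _ h1.1) i
        rw [sx_self] at h5
        rw [h4, if_pos ⟨h5, h1.2⟩, hΔ]
        simp only [sq_abs]
        exact le_refl _
      · have h4 : G q i = 0 := if_neg h1
        rw [h4, zero_pow two_ne_zero]
        split_ifs
        · exact sq_nonneg _
        · exact le_rfl
    · split_ifs
      · exact sq_nonneg _
      · exact le_rfl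
  have hCS : (∑ q ∈ C, ∑ i : Fin d, G q i) ≤
      Real.sqrt (d * 2 ^ (d * (m - ℓ))) * Real.sqrt (SS B w J ℓ) := by
    rw [← Real.sqrt_mul (by positivity)]
    refine Real.le_sqrt_of_sq_le ?_
    rw [← Finset.sum_product']
    refine (sq_sum_le_card_mul_sum_sq).trans ?_
    rw [Finset.sum_product' C Finset.univ fun q i => (G q i) ^ 2]
    have h1 : ((C ×ˢ (Finset.univ : Finset (Fin d))).card : ℝ) ≤ d * 2 ^ (d * (m - ℓ)) := by
      rw [Finset.card_product, Finset.card_univ, Fintype.card_fin]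
      have h2 := card_cells (J := J) (ℓ := ℓ) (m := m) k
      have h3 : C.card * d ≤ d * 2 ^ (d * (m - ℓ)) := by
        rw [mul_comm]; exact Nat.mul_le_mul_left _ h2
      exact_mod_cast h3
    have h0 : 0 ≤ ∑ q ∈ C, ∑ i : Fin d, (G q i) ^ 2 :=
      Finset.sum_nonneg fun q _ => Finset.sum_nonneg fun i _ => sq_nonneg _
    exact mul_le_mul h1 hSS h0 (by positivity)
  rw [hnb]
  calc tv J ℓ m k (fun q => w (rep B ℓ q)) ≤ _ := htv
    _ ≤ Real.sqrt (d * 2 ^ (d * (m - ℓ))) * Real.sqrt (SS B w J ℓ) + d * Bc.card * D +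
        d * Bc.card * D := by
        rw [hb1]
        exact add_le_add (add_le_add hCS le_rfl) hb2
    _ = _ := by rw [hD]; ring

end

end Pool.Agent.H897.LF
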